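import Pool.Agent.H39.IX.Targets2

/-! FIN. `N = Q + Q w₂`. -/

set_option autoImplicit false

open scoped InnerProductSpace Topology
open Filter Finset Pool.Agent.H80.G2 Pool.Agent.H39.IX

namespace Pool.Agent.H45.IX

theorem pf_FIN (hIDX : T_IDX) (hCE : T_CE) (hS4 : T_S4) (hQPN : T_QPN) : T_FIN := by
  intro H _ _ _ M N P A Q w s w₂ G ξ ζ hs hQ hcl hw hn ho x hx
  obtain ⟨-, hQN, -⟩ := hQPN H M N P A Q w G ξ ζ hs hQ
  obtain ⟨-, hww, -, -, -⟩ := hIDX H M P w ξ hs.trM hs.idx
  have hsum := hs.trN.sum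
  have hw2 : w₂ ∈ N := hw.uw.1
  have hw2s : star w₂ ∈ N := star_mem hw2
  obtain ⟨e, he, -, heo⟩ := hCE H N Q ζ hs.trN hQN x hx
  obtain ⟨f, hf, -, hfo⟩ := hCE H N Q ζ hs.trN hQN (x * star w₂) (mul_mem hx hw2s)
  refine ⟨e, he, f, hf, ?_⟩
  set y := x - e - f * w₂ with hy
  have hyN : y ∈ N := sub_mem (sub_mem hx (hQN e he)) (mul_mem (hQN f hf) hw2)
  -- the two orthogonality relations
  have o1 : ∀ q ∈ Q, tr ζ (q * y) = 0 := by
    intro q hq
    have e1 : q * y = q * (x - e) - q * f * w₂ := by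
      rw [hy, mul_sub, mul_assoc]
    rw [e1, tr_sub hsum, heo q hq, ho _ (mul_mem hq hf), sub_zero]
  have o2 : ∀ q ∈ Q, tr ζ (q * (y * star w₂)) = 0 := by
    intro q hq
    have e1 : q * (y * star w₂) = q * (x * star w₂ - f) - q * e * star w₂ := by
      rw [hy, sub_mul, sub_mul, mul_assoc f, hw.uw.2.2, mul_one, mul_sub, mul_sub, mul_sub,
        mul_assoc q e]
      abel
    have e2 : tr ζ (q * e * star w₂) = 0 := by
      have h1 : q * e * star w₂ = star (w₂ * star (q * e)) := by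
        rw [star_mul, star_star]
      have hqe : star (q * e) ∈ Q := star_mem (mul_mem hq he)
      rw [h1, tr_star, hs.trN.comm _ hw2 _ (hQN _ hqe), ho _ hqe, map_zero]
    rw [e1, tr_sub hsum, hfo q hq, e2, sub_zero]
  have hy0 : y = 0 := by
    by_contra hne
    have hp : 0 < ‖y‖ := norm_pos_iff.2 hne
    have hcn : ‖(((‖y‖ : ℝ) : ℂ))⁻¹‖ = ‖y‖⁻¹ := by
      rw [norm_inv, Complex.norm_real, norm_norm]
    set c : ℂ := (((‖y‖ : ℝ) : ℂ))⁻¹ with hc
    set y1 := c • y with hy1
    have hy1N : y1 ∈ N := smul_mem' N _ hyN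
    have hy1n : ‖y1‖ = 1 := by
      rw [hy1, norm_smul, hcn, inv_mul_cancel₀ hp.ne']
    have o1' : ∀ q ∈ Q, tr ζ (q * y1) = 0 := by
      intro q hq
      rw [hy1, mul_smul_comm, tr_smul, o1 q hq, mul_zero]
    have o2' : ∀ q ∈ Q, tr ζ (q * (y1 * star w₂)) = 0 := by
      intro q hq
      rw [hy1, smul_mul_assoc, mul_smul_comm, tr_smul, o2 q hq, mul_zero]
    obtain ⟨x', hx', hx'1, hyx⟩ := hs.nNM y1 hy1N hy1n.le
    obtain ⟨a, ha, z, hz, hxaz⟩ := hs.idx.dec x' hx'
    have hww' : star w * w = 1 := hs.idx.uni.2.1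
    have hww'' : w * star w = 1 := hs.idx.uni.2.2
    have h1 : ‖a‖ ≤ 1 / 1000000 := by
      refine hS4 H M N P A Q w G ξ ζ hs hQ y1 hy1N o1' a ha z hz (1 / 1000000) ?_
      rw [← hxaz, norm_sub_rev]
      exact hyx
    have h2 : ‖z‖ ≤ 4 / 100 + 1 / 1000000 := by
      refine hS4 H M N P A Q w G ξ ζ hs hQ (y1 * star w₂) (mul_mem hy1N hw2s) o2' z hz
        (a * star (w * w)) (mul_mem ha (star_mem hww)) (4 / 100 + 1 / 1000000) ?_
      have e1 : z + a * star (w * w) * w - y1 * star w₂ =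
          x' * (star w - star w₂) + (x' - y1) * star w₂ := by
        have e2 : a * star (w * w) * w = a * star w := by
          rw [star_mul, mul_assoc, mul_assoc (star w), hww', mul_one]
        have e3 : x' * star w = a * star w + z := by
          rw [hxaz, add_mul, mul_assoc z, hww'', mul_one]
        rw [e2, mul_sub, e3, sub_mul]
        abel
      rw [e1]
      refine (norm_add_le _ _).trans ?_
      have h3 : ‖x' * (star w - star w₂)‖ ≤ 4 / 100 := by
        refine (norm_mul_le _ _).trans ?_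
        rw [← star_sub, norm_star, norm_sub_rev]
        have := hw.ww
        have h4 := norm_nonneg (w₂ - w)
        nlinarith [norm_nonneg x']
      have h5 : ‖(x' - y1) * star w₂‖ ≤ 1 / 1000000 := by
        refine (norm_mul_le _ _).trans ?_
        rw [norm_sub_rev]
        have h6 := norm_of_uni hw.uw.star
        have h7 := norm_nonneg (y1 - x')
        nlinarith [norm_nonneg (star w₂)]
      linarith
    have h3 : ‖z * w‖ ≤ 4 / 100 + 1 / 1000000 := by
      refine (norm_mul_le _ _).trans ?_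
      have h4 := norm_of_uni hs.idx.uni
      have h5 := norm_nonneg z
      nlinarith [norm_nonneg w]
    have h4 : ‖y1‖ ≤ ‖y1 - x'‖ + (‖a‖ + ‖z * w‖) := by
      have e1 : y1 = (y1 - x') + (a + z * w) := by
        rw [← hxaz]
        abel
      calc ‖y1‖ = ‖(y1 - x') + (a + z * w)‖ := by rw [← e1]
        _ ≤ ‖y1 - x'‖ + ‖a + z * w‖ := norm_add_le _ _
        _ ≤ ‖y1 - x'‖ + (‖a‖ + ‖z * w‖) := by
          have := norm_add_le a (z * w)
          linarith
    linarith
  have e1 : x - e - f * w₂ = 0 := hy0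
  have e2 : x = (x - e - f * w₂) + (e + f * w₂) := by abel
  rw [e1, zero_add] at e2
  exact e2

end Pool.Agent.H45.IX
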