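import Pool.Agent.H39.IX.Targets2

/-! S4. Elements orthogonal to `Q` are near elements `a + z w` with small `a`. -/

set_option autoImplicit false

open scoped InnerProductSpace Topology
open Filter Finset Pool.Agent.H80.G2 Pool.Agent.H39.IX

namespace Pool.Agent.H45.IX

variable {H : Type} [NormedAddCommGroup H] [InnerProductSpace ℂ H] [CompleteSpace H]

theorem com_star {G : ℕ → Finset (H →L[ℂ] H)} (hG : GrpSeq G) {k : H →L[ℂ] H} (hk : Com G k) :
    Com G (star k) := by
  rintro g ⟨n, hg⟩
  have h1 := hk (star g) ⟨n, hG.star n g hg⟩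
  have h2 := congrArg star h1
  rw [star_mul, star_mul, star_star] at h2
  exact h2.symm

theorem com_one (G : ℕ → Finset (H →L[ℂ] H)) : Com G (1 : H →L[ℂ] H) := by
  intro g _
  rw [mul_one, one_mul]

theorem F_sub {G : ℕ → Finset (H →L[ℂ] H)} {F : (H →L[ℂ] H) → (H →L[ℂ] H)} (hF : IsF G F)
    (S T : H →L[ℂ] H) : F (S - T) = F S - F T := by
  have h1 : S - T = S + (-1 : ℂ) • T := by
    rw [neg_one_smul, sub_eq_add_neg]
  rw [h1, hF.add, hF.smul, neg_one_smul, sub_eq_add_neg]

theorem F_zero {G : ℕ → Finset (H →L[ℂ] H)} {F : (H →L[ℂ] H) → (H →L[ℂ] H)} (hF : IsF G F) :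
    F 0 = 0 := by
  have h1 := hF.smul 0 0
  rwa [zero_smul, zero_smul] at h1

theorem pf_S4 (hF : T_F) (hIDX : T_IDX) (hNPR : T_NPR) (hQPN : T_QPN) (hVEX : T_VEX)
    (hDNY : T_DNY) (hOPN : T_OPN) : T_S4 := by
  intro H _ _ _ M N P A Q w G ξ ζ hs hQ y hy hyo a ha z hz δ hδ
  obtain ⟨F, hF⟩ := hF H G hs.grp
  obtain ⟨hVQ, hQN, hcQ⟩ := hQPN H M N P A Q w G ξ ζ hs hQ
  obtain ⟨⟨hn1, hnstar, hnmul⟩, -, hk, -, -⟩ := hNPR H M N P A w G ξ ζ hs
  obtain ⟨hTP, -, -, -, -⟩ := hIDX H M P w ξ hs.trM hs.idx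
  have hGM : ∀ g, InG G g → g ∈ M := fun g hg => hs.idx.sub g (hs.GP g hg)
  have hsum := hs.trM.sum
  have hδ0 : 0 ≤ δ := (norm_nonneg _).trans hδ
  -- (1)
  have s1 : ∀ v v', VN N P A G v → VN N P A G v' → F (star v * y * v') = 0 := by
    intro v v' hv hv'
    have hvN : v ∈ N := hv.1.1
    have hv'N : v' ∈ N := hv'.1.1
    have hT : star v * y * v' ∈ N := mul_mem (mul_mem (star_mem hvN) hy) hv'N
    have hq : F (star v * y * v') ∈ N := hF.mem N hs.GN _ hT
    have hqc : Com G (F (star v * y * v')) := hF.com _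
    have hqQ : F (star v * y * v') ∈ Q := hcQ _ hq hqc
    have hqs := com_star hs.grp hqc
    have h1 := hF.bim _ 1 (star v * y * v') hqs (com_one G)
    rw [mul_one, mul_one] at h1
    have h2 := hF.trc N ζ hs.trN hs.GN (star (F (star v * y * v')) * (star v * y * v'))
      (mul_mem (star_mem hq) hT)
    have h3 : tr ζ (star (F (star v * y * v')) * (star v * y * v')) = 0 := by
      have e1 : star (F (star v * y * v')) * (star v * y * v') =
          (star (F (star v * y * v')) * star v * y) * v' := by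
        simp only [mul_assoc]
      have e2 : v' * (star (F (star v * y * v')) * star v * y) =
          (v' * star (F (star v * y * v')) * star v) * y := by
        simp only [mul_assoc]
      rw [e1, hs.trN.comm _ (mul_mem (mul_mem (star_mem hq) (star_mem hvN)) hy) _ hv'N, e2]
      exact hyo _ (mul_mem (mul_mem (hVQ v' hv') (star_mem hqQ)) (star_mem (hVQ v hv)))
    rw [h1, h3] at h2
    exact hs.trN.faith _ hq h2
  -- (2)
  have s2 : ∀ u u', Nor P A u → Nor P A u' → F (star u * y * u') = 0 := by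
    intro u u' hu hu'
    obtain ⟨v, hv, hvu⟩ := hVEX H M N P A w G ξ ζ hs u hu
    obtain ⟨v', hv', hvu'⟩ := hVEX H M N P A w G ξ ζ hs u' hu'
    have hUv : UH v := ⟨hv.1.2.1, hv.1.2.2⟩
    have hUv' : UH v' := ⟨hv'.1.2.1, hv'.1.2.2⟩
    have hc := hk v u hu hvu hUv
    have hc' := hk v' u' hu' hvu' hUv'
    have huu : u * star u = 1 := hu.1.2.2
    have huu' : u' * star u' = 1 := hu'.1.2.2
    have h1 := hF.bim _ _ (star u * y * u') (com_star hs.grp hc) hc'
    have e1 : star (star u * v) * (star u * y * u') * (star u' * v') = star v * y * v' := by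
      rw [star_mul, star_star]
      calc star v * u * (star u * y * u') * (star u' * v')
          = star v * (u * star u) * y * (u' * star u') * v' := by simp only [mul_assoc]
        _ = star v * y * v' := by rw [huu, huu', mul_one, mul_one]
    rw [e1, s1 v v' hv hv'] at h1
    have e2 : (star u * v) * (star (star u * v) * F (star u * y * u') * (star u' * v')) *
        star (star u' * v') = F (star u * y * u') := by
      have f1 : (star u * v) * star (star u * v) = 1 := by
        rw [star_mul, star_star, mul_assoc, ← mul_assoc v, hv.1.2.2, one_mul, hu.1.2.1]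
      have f2 : (star u' * v') * star (star u' * v') = 1 := by
        rw [star_mul, star_star, mul_assoc, ← mul_assoc v', hv'.1.2.2, one_mul, hu'.1.2.1]
      calc (star u * v) * (star (star u * v) * F (star u * y * u') * (star u' * v')) *
            star (star u' * v')
          = ((star u * v) * star (star u * v)) * F (star u * y * u') *
            ((star u' * v') * star (star u' * v')) := by simp only [mul_assoc]
        _ = F (star u * y * u') := by rw [f1, f2, one_mul, mul_one]
    rw [← e2, ← h1, mul_zero, zero_mul]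
  -- (3)
  set S : Set (H →L[ℂ] H) := {u | Nor P A u} with hS
  have s3 : ∀ b' ∈ Submodule.span ℂ S, ∀ b ∈ Submodule.span ℂ S, F (star b * y * b') = 0 := by
    intro b' hb' b hb
    induction hb' using Submodule.span_induction with
    | mem u' hu' =>
      induction hb using Submodule.span_induction with
      | mem u hu => exact s2 u u' hu hu'
      | zero => rw [star_zero, zero_mul, zero_mul, F_zero hF]
      | add b1 b2 _ _ h1 h2 => rw [star_add, add_mul, add_mul, hF.add, h1, h2, add_zero]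
      | smul c b1 _ h1 =>
        rw [star_smul, smul_mul_assoc, smul_mul_assoc, hF.smul, h1, smul_zero]
    | zero => rw [mul_zero, F_zero hF]
    | add b1 b2 _ _ h1 h2 => rw [mul_add, hF.add, h1, h2, add_zero]
    | smul c b1 _ h1 => rw [mul_smul_comm, hF.smul, h1, smul_zero]
  have hSP : ∀ b ∈ Submodule.span ℂ S, b ∈ P := by
    intro b hb
    induction hb using Submodule.span_induction with
    | mem u hu => exact hu.1.1
    | zero => exact zero_mem P
    | add b1 b2 _ _ h1 h2 => exact add_mem h1 h2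
    | smul c b1 _ h1 => exact smul_mem' P c h1
  have hwM : w ∈ M := hs.idx.uni.1
  have haM := hs.idx.sub a ha
  have hzM := hs.idx.sub z hz
  have s4 : ∀ b ∈ Submodule.span ℂ S, ∀ b' ∈ Submodule.span ℂ S,
      ‖tr ξ (star b * (a * b'))‖ ≤ δ * n2 ξ b * n2 ξ b' := by
    intro b hb b' hb'
    have hbP := hSP b hb
    have hbP' := hSP b' hb'
    have hbM := hs.idx.sub b hbP
    have hbM' := hs.idx.sub b' hbP'
    have h1 := hF.cs M ξ hs.trM hGM b hbM b' hbM' (a + z * w - y)
    have e1 : F (star b * (a + z * w - y) * b') = F (star b * (a + z * w) * b') := by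
      rw [mul_sub, sub_mul, F_sub hF, s3 b' hb' b hb, sub_zero]
    rw [e1, hF.trc M ξ hs.trM hGM _ (mul_mem (mul_mem (star_mem hbM)
      (add_mem haM (mul_mem hzM hwM))) hbM')] at h1
    have e2 : star b * (a + z * w) * b' = star b * (a * b') +
        (star b * z * (w * b' * star w)) * w := by
      have f1 : star b * z * (w * b' * star w) * w = star b * z * w * b' * (star w * w) := by
        simp only [mul_assoc]
      rw [f1, hs.idx.uni.2.1, mul_one, mul_add, add_mul]
      simp only [mul_assoc]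
    rw [e2, tr_add hsum, hs.idx.ort ξ hs.trM _ (mul_mem (mul_mem (star_mem hbP) hz)
      (hs.idx.nor b' hbP')), add_zero] at h1
    refine h1.trans ?_
    have h2 := n2_nonneg ξ b
    have h3 := n2_nonneg ξ b'
    have h4 : ‖a + z * w - y‖ * n2 ξ b ≤ δ * n2 ξ b := mul_le_mul_of_nonneg_right hδ h2
    exact mul_le_mul_of_nonneg_right h4 h3
  -- (4)
  have dens : ∀ c ∈ P, ∀ ε : ℝ, 0 < ε → ∃ b ∈ Submodule.span ℂ S, n2 ξ (c - b) < ε := by
    intro c hc ε hε
    refine hDNY H M ξ hs.trM S (fun u hu => hs.idx.sub u hu.1.1) (fun u hu => hnstar u hu)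
      (fun u hu v hv => hnmul u v hu hv) hn1 c ?_ ε hε
    intro t ht
    exact hs.reg c hc t fun u hu => ht u hu
  have s5 : ∀ c ∈ P, ∀ c' ∈ P, ‖tr ξ (star c * (a * c'))‖ ≤ δ * n2 ξ c * n2 ξ c' := by
    intro c hc c' hc'
    have key : ∀ ε : ℝ, 0 < ε → ‖tr ξ (star c * (a * c'))‖ ≤
        δ * (n2 ξ c + ε) * (n2 ξ c' + ε) + (ε * (‖a‖ * n2 ξ c') + (n2 ξ c + ε) * (‖a‖ * ε)) := by
      intro ε hε
      obtain ⟨b, hb, hcb⟩ := dens c hc ε hε
      obtain ⟨b', hb', hcb'⟩ := dens c' hc' ε hε
      have e1 : star c * (a * c') = star b * (a * b') +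
          (star (c - b) * (a * c') + star b * (a * (c' - b'))) := by
        rw [star_sub, sub_mul, mul_sub, mul_sub]
        abel
      have hb1 : n2 ξ b ≤ n2 ξ c + ε := by
        have h1 := n2_sub hsum c (c - b)
        rw [sub_sub_cancel] at h1
        linarith
      have hb1' : n2 ξ b' ≤ n2 ξ c' + ε := by
        have h1 := n2_sub hsum c' (c' - b')
        rw [sub_sub_cancel] at h1
        linarith
      have n1 := n2_nonneg ξ b
      have n2' := n2_nonneg ξ b'
      have n3 := n2_nonneg ξ c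
      have n4 := n2_nonneg ξ c'
      have n5 := norm_nonneg a
      have n6 := n2_nonneg ξ (c - b)
      have n7 := n2_nonneg ξ (c' - b')
      have t1 : ‖tr ξ (star b * (a * b'))‖ ≤ δ * (n2 ξ c + ε) * (n2 ξ c' + ε) := by
        refine (s4 b hb b' hb').trans ?_
        refine mul_le_mul (mul_le_mul_of_nonneg_left hb1 hδ0) hb1' n2' ?_
        positivity
      have t2 : ‖tr ξ (star (c - b) * (a * c'))‖ ≤ ε * (‖a‖ * n2 ξ c') := by
        refine (norm_tr_mul_le hsum _ _).trans ?_
        exact mul_le_mul hcb.le (n2_mul_le hsum a c') (n2_nonneg _ _) hε.le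
      have t3 : ‖tr ξ (star b * (a * (c' - b')))‖ ≤ (n2 ξ c + ε) * (‖a‖ * ε) := by
        refine (norm_tr_mul_le hsum _ _).trans ?_
        refine mul_le_mul hb1 ((n2_mul_le hsum a _).trans ?_) (n2_nonneg _ _) (by positivity)
        exact mul_le_mul_of_nonneg_left hcb'.le n5
      rw [e1, tr_add hsum, tr_add hsum]
      refine (norm_add_le _ _).trans ?_
      refine add_le_add t1 ((norm_add_le _ _).trans (add_le_add t2 t3))
    have hcont : Continuous fun ε : ℝ => δ * (n2 ξ c + ε) * (n2 ξ c' + ε) +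
        (ε * (‖a‖ * n2 ξ c') + (n2 ξ c + ε) * (‖a‖ * ε)) := by fun_prop
    have h1 := (hcont.tendsto 0).mono_left (nhdsWithin_le_nhds (s := Set.Ioi (0 : ℝ)))
    have h2 := ge_of_tendsto h1 (eventually_nhdsWithin_of_forall fun ε hε => key ε hε)
    simpa using h2
  refine hOPN H P ξ hTP a ha δ fun b hb => ?_
  have h1 := s5 (a * b) (mul_mem ha hb) b hb
  rw [tr_star_mul hsum] at h1
  have h2 : ‖((n2 ξ (a * b) ^ 2 : ℝ) : ℂ)‖ = n2 ξ (a * b) ^ 2 := by
    rw [Complex.norm_real, Real.norm_eq_abs, abs_of_nonneg (sq_nonneg _)]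
  rw [h2] at h1
  have h3 := n2_nonneg ξ (a * b)
  have h4 := n2_nonneg ξ b
  rcases h3.eq_or_lt with h5 | h5
  · rw [← h5]
    positivity
  · have h6 : n2 ξ (a * b) * n2 ξ (a * b) ≤ (δ * n2 ξ b) * n2 ξ (a * b) := by nlinarith
    exact le_of_mul_le_mul_right h6 h5

end Pool.Agent.H45.IX
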