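import Pool.Agent.H39.IX.Targets2

/-! SPQ. `P` is near `Q`. -/

set_option autoImplicit false

open scoped InnerProductSpace Topology
open Filter Finset Pool.Agent.H80.G2 Pool.Agent.H39.IX

namespace Pool.Agent.H45.IX

theorem pf_SPQ (hQPN : T_QPN) (hCE : T_CE) (hS4 : T_S4) : T_SPQ := by
  intro H _ _ _ M N P A Q w G ξ ζ hs hQ hQP
  obtain ⟨-, hQN, -⟩ := hQPN H M N P A Q w G ξ ζ hs hQ
  have key : ∀ x ∈ P, ‖x‖ ≤ 1 → ∃ y ∈ Q, ‖x - y‖ ≤ 9 / 1000000 := by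
    intro x hx hx1
    obtain ⟨y, hy, hy1, hxy⟩ := hs.nMN x (hs.idx.sub x hx) hx1
    obtain ⟨e, he, hey, hort⟩ := hCE H N Q ζ hs.trN hQN y hy
    obtain ⟨a1, ha1, hea⟩ := hQP e he
    have he1 : ‖e - a1‖ ≤ 4 / 1000000 := by
      have := norm_nonneg e
      nlinarith
    have h1 : ‖(x - a1) + 0 * w - (y - e)‖ ≤ 5 / 1000000 := by
      have e1 : (x - a1) + 0 * w - (y - e) = (x - y) + (e - a1) := by
        rw [zero_mul]
        abel
      rw [e1]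
      refine (norm_add_le _ _).trans ?_
      linarith
    have h2 := hS4 H M N P A Q w G ξ ζ hs hQ (y - e) (sub_mem hy (hQN e he)) hort (x - a1)
      (sub_mem hx ha1) 0 (zero_mem P) (5 / 1000000) h1
    refine ⟨e, he, ?_⟩
    have e2 : x - e = (x - a1) - (e - a1) := by abel
    rw [e2]
    refine (norm_sub_le _ _).trans ?_
    linarith
  intro x hx
  by_cases h0 : x = 0
  · refine ⟨0, zero_mem Q, ?_⟩
    rw [h0]
    simp
  · have hp : 0 < ‖x‖ := norm_pos_iff.2 h0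
    have hc : ((‖x‖ : ℝ) : ℂ) ≠ 0 := by exact_mod_cast hp.ne'
    have hn : ‖(((‖x‖ : ℝ) : ℂ))‖ = ‖x‖ := by
      rw [Complex.norm_real, norm_norm]
    obtain ⟨y, hy, hxy⟩ := key ((((‖x‖ : ℝ) : ℂ)⁻¹) • x) (smul_mem' P _ hx) (by
      rw [norm_smul, norm_inv, hn, inv_mul_cancel₀ hp.ne'])
    refine ⟨((‖x‖ : ℝ) : ℂ) • y, smul_mem' Q _ hy, ?_⟩
    have e1 : x - ((‖x‖ : ℝ) : ℂ) • y =
        ((‖x‖ : ℝ) : ℂ) • ((((‖x‖ : ℝ) : ℂ)⁻¹) • x - y) := by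
      rw [smul_sub, smul_smul, mul_inv_cancel₀ hc, one_smul]
    rw [e1, norm_smul, hn]
    nlinarith

end Pool.Agent.H45.IX
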